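import Pool.Agent.Helper8.DP.Final2
import Pool.Agent.Helper8.DP.STEP
import Pool.Agent.Helper8.DP.APP
import Pool.Agent.Helper24.DP.GAD
import Pool.Agent.Helper33.DP.IND
import Pool.Agent.Helper59.DP.EXT

open scoped ZeroAtInfty ContDiff NNReal

/-- Norm-independent constant one, for two classes of spaces.

1. Let `Y` be a normed space in the class `𝓔_k`: `Φ` is a bi-Lipschitz embedding of `Y` into
`c_0(Γ)` with `C^k` coordinates. Suppose that `Y` is linearly isomorphic to a subspace of a space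
`X` (which need not be in `𝓔_k`) with a directed system of finite-rank projections `P s` such
that sums of increments `P (b l) - P (a l)` over non-overlapping pairs `a l ≤ b l` are uniformly
bounded, and such that averages of many vectors of the unit ball which belong to non-overlapping
increments are uniformly small. (For example the finite partial sums of an unconditional
decomposition of `c_0(Γ)`, `ℓ_p` or `c_0(Γ; ℓ_p)`, `1 < p < ∞`.) Then every `L`-Lipschitz real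
function on `Y` is, up to any `ε > 0`, uniformly approximated by `C^k` functions which are
`L`-Lipschitz with the same `L`.

2. Let `Q` be a compact Hausdorff space of finite Cantor-Bendixson height. Then `C(Q)` belongs to
`𝓔_∞`, and if `Y` is any normed space which is linearly isomorphic to a subspace of `C(Q)`, then
every `L`-Lipschitz real function on `Y` is, up to any `ε > 0`, uniformly approximated by `C^∞`
functions which are `L`-Lipschitz with the same `L`.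

In both parts the norm of `Y` is arbitrary, so the constant one is the same for all equivalent
norms. -/
theorem Pool.Agent.Results.MP_3a8adc_an.DirectedSystems.result.{u, v, w, z, t} :
    (∀ (Y : Type u) [NormedAddCommGroup Y] [NormedSpace ℝ Y] (Γ : Type v) [TopologicalSpace Γ]
      [DiscreteTopology Γ] (k : ℕ∞) (_ : 1 ≤ k)
      -- `Y` belongs to `𝓔_k`
      (Φ : Y → C₀(Γ, ℝ)) (_ : ∀ γ, ContDiff ℝ k fun y => Φ y γ) (c L₀ : ℝ) (_ : 0 < c)
      (_ : ∀ x y, c * ‖x - y‖ ≤ ‖Φ x - Φ y‖) (_ : ∀ x y, ‖Φ x - Φ y‖ ≤ L₀ * ‖x - y‖)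
      (X : Type w) [NormedAddCommGroup X] [NormedSpace ℝ X]
      -- the directed system of finite-rank projections of `X`
      (ι : Type z) [Preorder ι] (_ : ∀ s t : ι, ∃ u, s ≤ u ∧ t ≤ u) (P : ι → X →L[ℝ] X)
      (_ : ∀ s t, s ≤ t → ∀ x, P s (P t x) = P s x)
      (_ : ∀ s t, s ≤ t → ∀ x, P t (P s x) = P s x)
      (_ : ∀ s, FiniteDimensional ℝ (LinearMap.range (P s : X →ₗ[ℝ] X)))
      (_ : ∀ (x : X) (δ : ℝ), 0 < δ → ∃ s, ‖x - P s x‖ ≤ δ)
      -- sums of increments over non-overlapping pairs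
      (C : ℝ) (_ : ∀ (F : Finset ℕ) (a b : ℕ → ι), (∀ l ∈ F, a l ≤ b l) →
        (∀ l ∈ F, ∀ l' ∈ F, l ≠ l' → b l ≤ a l' ∨ b l' ≤ a l) →
        ∀ x, ‖∑ l ∈ F, (P (b l) x - P (a l) x)‖ ≤ C * ‖x‖)
      -- averages of many vectors in non-overlapping increments are small
      (_ : ∀ η : ℝ, 0 < η → ∃ m : ℕ, 0 < m ∧ ∀ (v : ℕ → X) (a b : ℕ → ι),
        (∀ l < m, a l ≤ b l) → (∀ l < m, ∀ l' < m, l ≠ l' → b l ≤ a l' ∨ b l' ≤ a l) →
        (∀ j < m, ‖v j‖ ≤ 1) → (∀ j < m, P (b j) (v j) = v j) → (∀ j < m, P (a j) (v j) = 0) →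
        ‖∑ j ∈ Finset.range m, v j‖ ≤ η * m)
      -- `Y` is isomorphic to a subspace of `X`
      (T : Y →L[ℝ] X) (c' : ℝ) (_ : 0 < c') (_ : ∀ y, c' * ‖y‖ ≤ ‖T y‖)
      (f : Y → ℝ) (L : ℝ≥0) (_ : LipschitzWith L f) (ε : ℝ) (_ : 0 < ε),
      ∃ K : Y → ℝ, ContDiff ℝ k K ∧ LipschitzWith L K ∧ ∀ y, |f y - K y| < ε) ∧
    (∀ (Q : Type t) [TopologicalSpace Q] [CompactSpace Q] [T2Space Q]
      -- the `n`-th derived set is empty
      (n : ℕ) (_ : derivedSet^[n] (Set.univ : Set Q) = ∅),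
      -- `C(Q)` belongs to `𝓔_∞`
      (∃ (Γ : Type t) (_ : Nonempty Γ) (_ : TopologicalSpace Γ) (_ : DiscreteTopology Γ)
        (Φ : C(Q, ℝ) → C₀(Γ, ℝ)) (c L₀ : ℝ), 0 < c ∧ (∀ γ, ContDiff ℝ ∞ fun x => Φ x γ) ∧
        (∀ x y, c * ‖x - y‖ ≤ ‖Φ x - Φ y‖) ∧ ∀ x y, ‖Φ x - Φ y‖ ≤ L₀ * ‖x - y‖) ∧
      -- the spaces isomorphic to a subspace of `C(Q)`
      ∀ (Y : Type u) [NormedAddCommGroup Y] [NormedSpace ℝ Y] (T : Y →L[ℝ] C(Q, ℝ)) (c' : ℝ)
        (_ : 0 < c') (_ : ∀ y, c' * ‖y‖ ≤ ‖T y‖) (f : Y → ℝ) (L : ℝ≥0) (_ : LipschitzWith L f)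
        (ε : ℝ) (_ : 0 < ε),
        ∃ K : Y → ℝ, ContDiff ℝ ∞ K ∧ LipschitzWith L K ∧ ∀ y, |f y - K y| < ε) := by
  refine ⟨?_, ?_⟩
  · intro Y _ _ Γ _ _ k hk Φ hΦ c L₀ hc hlow hup X _ _ ι _ hdir P hP hP' hfin hdense C hunc havg
      T c' hc' hT f L hf ε hε
    exact Pool.Agent.Helper8.DP.general k hk Φ hΦ c L₀ hc hlow hup hdir P hP hP' hfin hdense C
      hunc havg T c' hc' hT f L hf ε hε
  · intro Q _ _ _ n hQ
    exact Pool.Agent.Helper8.DP.compact_case (Pool.Agent.Helper8.DP.st_IND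
      Pool.Agent.Helper8.DP.st_APP' (Pool.Agent.Helper8.DP.st_STEP
        Pool.Agent.Helper8.DP.st_EXT Pool.Agent.Helper8.DP.st_GAD)) Q n hQ
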