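import Pool.Agent.Helper8.KT.StarAll
import Pool.Agent.Helper4.KT.DC0

open scoped ZeroAtInfty ContDiff NNReal

namespace Pool.Agent.Results.MP_3a8adc_an.SeparableDual

/-- `Y` belongs to the class `𝓔_k`, with the index set `Γ`. -/
def ClassE (k : ℕ∞) (Y Γ : Type*) [NormedAddCommGroup Y] [NormedSpace ℝ Y] [TopologicalSpace Γ]
    [DiscreteTopology Γ] : Prop :=
  ∃ (Φ : Y → C₀(Γ, ℝ)) (c L : ℝ), (∀ γ, ContDiff ℝ k fun y => Φ y γ) ∧ 0 < c ∧
    (∀ x y, c * ‖x - y‖ ≤ ‖Φ x - Φ y‖) ∧ ∀ x y, ‖Φ x - Φ y‖ ≤ L * ‖x - y‖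

/-- `Y` has property `(*^k)` with the constant `A`. -/
def Star (k : ℕ∞) (A : ℝ≥0) (Y : Type*) [NormedAddCommGroup Y] [NormedSpace ℝ Y] : Prop :=
  ∀ (f : Y → ℝ) (L : ℝ≥0), LipschitzWith L f → ∀ ε : ℝ, 0 < ε →
    ∃ K : Y → ℝ, ContDiff ℝ k K ∧ LipschitzWith (A * L) K ∧ ∀ y, |f y - K y| < ε

/-- `Y` is linearly isomorphic to a subspace of `X`. -/
def Embeds (Y X : Type*) [NormedAddCommGroup Y] [NormedSpace ℝ Y] [NormedAddCommGroup X]
    [NormedSpace ℝ X] : Prop :=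
  ∃ (T : Y →L[ℝ] X) (c : ℝ), 0 < c ∧ ∀ y, c * ‖y‖ ≤ ‖T y‖

/-- The norm is a uniform limit of `C^k`-smooth functions which are `A`-Lipschitz. -/
def NormLimit (k : ℕ∞) (A : ℝ≥0) (Z : Type*) [NormedAddCommGroup Z] [NormedSpace ℝ Z] : Prop :=
  ∀ δ : ℝ, 0 < δ → ∃ ν : Z → ℝ, ContDiff ℝ k ν ∧ LipschitzWith A ν ∧ ∀ x, |ν x - ‖x‖| ≤ δ

/-- Constant one.

(1) Let `X` be a normed space whose dual is separable, and let `Z` be any normed space which is
isomorphic to a subspace of `X` (for example `X` with an arbitrary equivalent norm). Then `Z` has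
property `(*^1)` with the constant `1`.

(2) Let `Z` be a separable normed space whose norm is a uniform limit of `C^k`-smooth
`A`-Lipschitz functions. Then `Z` has property `(*^k)` with the constant `A`.

(3) Let `X` be a normed space whose dual is separable, `I` any set, and let `Y` be a normed space
in the class `𝓔_1` which is isomorphic to a subspace of `c_0(I; X)` (any norm). Then `Y` has
property `(*^1)` with the constant `1`. -/
theorem result.{u, v, w, t, r} :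
    (∀ (X : Type u) [NormedAddCommGroup X] [NormedSpace ℝ X]
      [TopologicalSpace.SeparableSpace (StrongDual ℝ X)]
      (Z : Type v) [NormedAddCommGroup Z] [NormedSpace ℝ Z], Embeds Z X → Star 1 1 Z) ∧
    (∀ (Z : Type v) [NormedAddCommGroup Z] [NormedSpace ℝ Z] [TopologicalSpace.SeparableSpace Z]
      (k : ℕ∞) (A : ℝ≥0), NormLimit k A Z → Star k A Z) ∧
    (∀ (X : Type u) [NormedAddCommGroup X] [NormedSpace ℝ X]
      [TopologicalSpace.SeparableSpace (StrongDual ℝ X)]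
      (I : Type r) [TopologicalSpace I] [DiscreteTopology I]
      (Y : Type w) [NormedAddCommGroup Y] [NormedSpace ℝ Y]
      (Γ : Type t) [TopologicalSpace Γ] [DiscreteTopology Γ], ClassE 1 Y Γ →
      Embeds Y C₀(I, X) → Star 1 1 Y) := by
  refine ⟨?_, ?_, ?_⟩
  · intro X _ _ _ Z _ _ ⟨T, c, hc, hT⟩ f L hf ε hε
    have hs : TopologicalSpace.SeparableSpace (StrongDual ℝ Z) :=
      Pool.Agent.Helper8.KT.dual_sep_embed T c hc hT
    exact Pool.Agent.Helper8.KT.star_of_dual Pool.Agent.Helper8.KT.allFin Z f L hf ε hε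
  · intro Z _ _ _ k A hA f L hf ε hε
    refine Pool.Agent.Helper8.KT.star_of_normApp Pool.Agent.Helper8.KT.allFin Z k
      (by exact_mod_cast le_top) A (fun δ hδ => ?_) f L hf ε hε
    obtain ⟨ν, h1, h2, h3⟩ := hA δ hδ
    refine ⟨ν, h1, fun x y => ?_, h3⟩
    have := h2.dist_le_mul x y
    rwa [Real.dist_eq, dist_eq_norm] at this
  · intro X _ _ _ I _ _ Y _ _ Γ _ _ ⟨Φ, c, L₀, hΦ, hc, hlow, hup⟩ ⟨T, c', hc', hT⟩ f L hf ε hε
    have hs : TopologicalSpace.SeparableSpace X := Pool.Agent.Helper8.SE.stSEP X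
    have hd : TopologicalSpace.SeparableSpace (StrongDual ℝ C₀(ℕ, X)) :=
      Pool.Agent.Helper4.KT.DC.stDC0 X
    have h1 : Pool.Agent.Helper94.SR.StarAll ((1 : ℕ∞) : WithTop ℕ∞) C₀(ℕ, X) ((1 : ℝ≥0) : ℝ) := by
      have := Pool.Agent.Helper8.KT.starAll_one C₀(ℕ, X)
      simpa using this
    exact Pool.Agent.Helper94.SR.c0_conclusion (I := I) 1 le_rfl le_rfl h1
      (Pool.Agent.Helper94.SR.ekOf _ Φ hΦ c L₀ hc hlow hup) T c' hc' hT f L hf ε hε

end Pool.Agent.Results.MP_3a8adc_an.SeparableDual
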