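import Pool.Agent.Helper94.UP.All

open scoped ZeroAtInfty ContDiff NNReal

namespace Pool.Agent.Results.MP_3a8adc_an.SeparableRanges

/-- `Y` belongs to the class `𝓔_k`, with the index set `Γ`. -/
def ClassE (k : ℕ∞) (Y Γ : Type*) [NormedAddCommGroup Y] [NormedSpace ℝ Y] [TopologicalSpace Γ]
    [DiscreteTopology Γ] : Prop :=
  ∃ (Φ : Y → C₀(Γ, ℝ)) (c L : ℝ), (∀ γ, ContDiff ℝ k fun y => Φ y γ) ∧ 0 < c ∧
    (∀ x y, c * ‖x - y‖ ≤ ‖Φ x - Φ y‖) ∧ ∀ x y, ‖Φ x - Φ y‖ ≤ L * ‖x - y‖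

/-- `Y` has property `(*^k)` with the constant `A`. -/
def Star (k : ℕ∞) (A : ℝ≥0) (Y : Type*) [NormedAddCommGroup Y] [NormedSpace ℝ Y] : Prop :=
  ∀ (f : Y → ℝ) (L : ℝ≥0), LipschitzWith L f → ∀ ε : ℝ, 0 < ε →
    ∃ K : Y → ℝ, ContDiff ℝ k K ∧ LipschitzWith (A * L) K ∧ ∀ y, |f y - K y| < ε

/-- `V` has property `(*^k)` with the constant `A` for every equivalent norm `q` on `V`. -/
def StarEveryNorm (k : ℕ∞) (A : ℝ≥0) (V : Type*) [NormedAddCommGroup V] [NormedSpace ℝ V] :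
    Prop :=
  ∀ (q : Seminorm ℝ V) (M : ℝ), 0 < M → (∀ v, q v ≤ M * ‖v‖) → (∀ v, ‖v‖ ≤ M * q v) →
    ∀ (g : V → ℝ) (Λ : ℝ), 0 ≤ Λ → (∀ x y, |g x - g y| ≤ Λ * q (x - y)) → ∀ δ : ℝ, 0 < δ →
    ∃ K : V → ℝ, ContDiff ℝ k K ∧ (∀ x y, |K x - K y| ≤ A * Λ * q (x - y)) ∧
      ∀ x, |g x - K x| < δ

/-- `Y` is linearly isomorphic to a subspace of `X`. -/
def Embeds (Y X : Type*) [NormedAddCommGroup Y] [NormedSpace ℝ Y] [NormedAddCommGroup X]
    [NormedSpace ℝ X] : Prop :=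
  ∃ (T : Y →L[ℝ] X) (c : ℝ), 0 < c ∧ ∀ y, c * ‖y‖ ≤ ‖T y‖

/-- The pairs `a l ≤ b l`, `l ∈ F`, do not overlap. -/
def NonOverlapping {ι : Type*} [Preorder ι] (F : Finset ℕ) (a b : ℕ → ι) : Prop :=
  (∀ l ∈ F, a l ≤ b l) ∧ ∀ l ∈ F, ∀ l' ∈ F, l ≠ l' → b l ≤ a l' ∨ b l' ≤ a l

/-- A countably directed system of projections with separable ranges, with bounded sums of
increments and small averages. -/
structure SeparableSystem {X ι : Type*} [NormedAddCommGroup X] [NormedSpace ℝ X] [Preorder ι]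
    (P : ι → X →L[ℝ] X) : Prop where
  dir : ∀ u : ℕ → ι, ∃ t, ∀ n, u n ≤ t
  comp : ∀ s t, s ≤ t → ∀ x, P s (P t x) = P s x ∧ P t (P s x) = P s x
  sep : ∀ s, TopologicalSpace.IsSeparable (Set.range (P s))
  dense : ∀ (x : X) (δ : ℝ), 0 < δ → ∃ s, ‖x - P s x‖ ≤ δ
  unc : ∃ C : ℝ, ∀ (F : Finset ℕ) (a b : ℕ → ι), NonOverlapping F a b →
    ∀ x, ‖∑ l ∈ F, (P (b l) x - P (a l) x)‖ ≤ C * ‖x‖
  avg : ∀ η : ℝ, 0 < η → ∃ m : ℕ, 0 < m ∧ ∀ (v : ℕ → X) (a b : ℕ → ι),
    NonOverlapping (Finset.range m) a b → (∀ j < m, ‖v j‖ ≤ 1) →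
    (∀ j < m, P (b j) (v j) = v j) → (∀ j < m, P (a j) (v j) = 0) →
    ‖∑ j ∈ Finset.range m, v j‖ ≤ η * m

/-- The system in the form used in the proofs. -/
theorem toSPS {X ι : Type*} [NormedAddCommGroup X] [NormedSpace ℝ X] [Preorder ι]
    {P : ι → X →L[ℝ] X} (hP : SeparableSystem P) :
    ∃ E : Pool.Agent.Helper94.SR.SPS X ι, E.P = P := by
  obtain ⟨C, hunc⟩ := hP.unc
  have hdir2 : ∀ s t : ι, ∃ u, s ≤ u ∧ t ≤ u := fun s t => by
    obtain ⟨u, hu⟩ := hP.dir fun n => Nat.casesOn n s fun _ => t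
    exact ⟨u, hu 0, hu 1⟩
  have habs : ∀ y : X, C * ‖y‖ ≤ (1 + |C|) * ‖y‖ := fun y =>
    mul_le_mul_of_nonneg_right (by linarith [le_abs_self C]) (norm_nonneg y)
  have hP1 : ∀ s t, s ≤ t → ∀ x, P s (P t x) = P s x := fun s t h x => (hP.comp s t h x).1
  have hP2 : ∀ s t, s ≤ t → ∀ x, P t (P s x) = P s x := fun s t h x => (hP.comp s t h x).2
  have hbdd : ∀ s x, ‖P s x‖ ≤ (1 + |C|) * ‖x‖ :=
    Pool.Agent.Helper94.SR.bdd_of hdir2 P hP1 hP2 (fun s t hst x => by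
      have := hunc {0} (fun _ => s) (fun _ => t) ⟨fun _ _ => hst,
        fun l hl l' hl' hne => absurd
          ((Finset.mem_singleton.1 hl).trans (Finset.mem_singleton.1 hl').symm) hne⟩ x
      simpa using this) hP.dense
  have hC1 : 1 ≤ 1 + |C| := by linarith [abs_nonneg C]
  exact ⟨{ P := P
           PP := hP1
           PP' := hP2
           near := Pool.Agent.Helper94.SR.near_of hP.dir P hP2 hC1 hbdd hP.sep hP.dense
           C := 1 + |C|
           C1 := hC1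
           bdd := hbdd
           unc := fun F a b h x => (hunc F a b h x).trans (habs x)
           dens := hP.dense
           avg := hP.avg }, rfl⟩

/-- Let `1 ≤ k ≤ ∞` and let `Y` be a normed space (with any norm).

* Let `Z` be a separable normed space in the class `𝓔_k` which is complete or has separable dual.
  If `Y` is linearly isomorphic to a subspace of `Z` (for example `Y = Z` with any equivalent
  norm), or to a subspace of `c_0(I; Z)` for any set `I`, then `Y` has property `(*^k)` with the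
  constant `1`.
* Let `X` be a Banach space in the class `𝓔_k` with a countably directed system of projections
  with separable ranges, with bounded sums of increments and small averages. If `Y` is linearly
  isomorphic to a subspace of `X`, then `Y` has property `(*^k)` with the constant `1`.
* Let `X` be a normed space with such a system, such that every range has property `(*^k)` with
  the constant `A` for every equivalent norm. If `Y` is in the class `𝓔_k` and is linearly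
  isomorphic to a subspace of `X`, then `Y` has property `(*^k)` with the constant `A`. -/
theorem result.{u, v, w, z, t, r} (k : ℕ∞) (hk : 1 ≤ k)
    (Y : Type u) [NormedAddCommGroup Y] [NormedSpace ℝ Y]
    (Γ : Type v) [TopologicalSpace Γ] [DiscreteTopology Γ] :
    (∀ (Z : Type t) [NormedAddCommGroup Z] [NormedSpace ℝ Z] [TopologicalSpace.SeparableSpace Z],
      (CompleteSpace Z ∨ TopologicalSpace.SeparableSpace (StrongDual ℝ Z)) → ClassE k Z Γ →
      (Embeds Y Z → Star k 1 Y) ∧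
      ∀ (I : Type r) [TopologicalSpace I] [DiscreteTopology I], Embeds Y C₀(I, Z) → Star k 1 Y) ∧
    (∀ (X : Type w) [NormedAddCommGroup X] [NormedSpace ℝ X] [CompleteSpace X]
      (ι : Type z) [Preorder ι] (P : ι → X →L[ℝ] X), ClassE k X Γ → SeparableSystem P →
      Embeds Y X → Star k 1 Y) ∧
    (∀ (X : Type w) [NormedAddCommGroup X] [NormedSpace ℝ X] (ι : Type z) [Preorder ι]
      (P : ι → X →L[ℝ] X) (A : ℝ≥0), 1 ≤ A → ClassE k Y Γ → SeparableSystem P →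
      (∀ s : ι, StarEveryNorm k A (LinearMap.range (P s : X →ₗ[ℝ] X))) →
      Embeds Y X → Star k A Y) := by
  refine ⟨?_, ?_, ?_⟩
  · rintro Z _ _ _ hZ ⟨Φ, c, L₀, hΦ, hc, hlow, hup⟩
    refine ⟨?_, ?_⟩
    · rintro ⟨T, c', hc', hT⟩ f L hf ε hε
      exact Pool.Agent.Helper94.UP.sep_star Pool.Agent.Helper94.UP.allONE
        Pool.Agent.Helper94.UP.allA1 Pool.Agent.Helper94.UP.allA2
        Pool.Agent.Helper94.UP.allASP Pool.Agent.Helper94.UP.allA5 hZ k hk
        (Pool.Agent.Helper94.SR.ekOf k Φ hΦ c L₀ hc hlow hup) T c' hc' hT f L hf ε hε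
    · rintro I _ _ ⟨T, c', hc', hT⟩ f L hf ε hε
      exact Pool.Agent.Helper94.UP.c0_star Pool.Agent.Helper94.UP.allONE
        Pool.Agent.Helper94.UP.allA1 Pool.Agent.Helper94.UP.allA2
        Pool.Agent.Helper94.UP.allASP Pool.Agent.Helper94.UP.allA5
        Pool.Agent.Helper94.UP.stA6 Pool.Agent.Helper94.UP.a6_gen
        Pool.Agent.Helper89.KT.stDC0 hZ k hk
        (Pool.Agent.Helper94.SR.ekOf k Φ hΦ c L₀ hc hlow hup) T c' hc' hT f L hf ε hε
  · rintro X _ _ _ ι _ P ⟨Φ, c, L₀, hΦ, hc, hlow, hup⟩ hP ⟨T, c', hc', hT⟩ f L hf ε hε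
    have hne : Nonempty ι := by
      obtain ⟨s, _⟩ := hP.dense 0 1 one_pos
      exact ⟨s⟩
    have hdo : IsDirectedOrder ι := ⟨fun s t => by
      obtain ⟨u, hu⟩ := hP.dir fun n => Nat.casesOn n s fun _ => t
      exact ⟨u, hu 0, hu 1⟩⟩
    obtain ⟨E, rfl⟩ := toSPS hP
    exact Pool.Agent.Helper94.UP.sys_star Pool.Agent.Helper94.UP.allONE
      Pool.Agent.Helper94.UP.allA1 Pool.Agent.Helper94.UP.allA2
      Pool.Agent.Helper94.UP.allASP Pool.Agent.Helper94.UP.allA5 k hk E hP.sep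
      (Pool.Agent.Helper94.SR.ekOf k Φ hΦ c L₀ hc hlow hup) T c' hc' hT f L hf ε hε
  · rintro X _ _ ι _ P A hA ⟨Φ, c, L₀, hΦ, hc, hlow, hup⟩ hP hR ⟨T, c', hc', hT⟩ f L hf ε hε
    have hne : Nonempty ι := by
      obtain ⟨s, _⟩ := hP.dense 0 1 one_pos
      exact ⟨s⟩
    have hdo : IsDirectedOrder ι := ⟨fun s t => by
      obtain ⟨u, hu⟩ := hP.dir fun n => Nat.casesOn n s fun _ => t
      exact ⟨u, hu 0, hu 1⟩⟩
    obtain ⟨E, rfl⟩ := toSPS hP
    exact Pool.Agent.Helper94.SR.conclusion k hk E hA hR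
      (Pool.Agent.Helper94.SR.ekOf k Φ hΦ c L₀ hc hlow hup) T c' hc' hT f L hf ε hε

end Pool.Agent.Results.MP_3a8adc_an.SeparableRanges
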